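import Pool.Agent.K7x.QC.World4
import Pool.Agent.K7x.QC.Graph3
import Pool.Agent.K7x.QC.Core
import Pool.Agent.K7x.QC.Core2
import Pool.Agent.K7x.QC.Core3
import Pool.Agent.K7x.QC.Dens
import Pool.Agent.K7x.QC.Shrink
import Pool.Agent.K7x.QC.Aff
import Pool.Agent.K7x.QC.Close
import Pool.Agent.K7x.QC.Circ
import Pool.Agent.K7x.QC.Test
import Pool.Agent.K7x.QC.Norm
import Pool.Agent.K7x.QC.Am

/-!
# A classical oracle for perfectly complete quantum witnesses on both sides, versus adaptive
questions to `QCMA`

Above every oracle `B` there is a classical oracle `A` and a language `L` such that, relative to `A`: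
* `L` and its complement are in `oSQMA` with perfect completeness (the witnesses are subset states
  which are accepted with probability one; in particular, `L` and its complement are in `QMA₁`);
* `L` and its complement are in `AM` with perfect completeness;
* for every computable `t` with `t n = o(n)`: neither `L` nor its complement is in `QCMA`, even if
  the verifier may use time and classical witnesses of length `2 ^ O(t n)`; `L` is not decided
  in time `2 ^ O(t n)` by a deterministic algorithm with adaptive questions to a `QCMA` verifier, all
  in the promise, and also not with nonadaptive questions which may violate the promise.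
-/

set_option autoImplicit false

namespace Pool.Agent.Results.MP_36f78e_lc.AdaptiveQuestions

open Pool.Agent.NPC Pool.Agent.H620R2.Gauge Pool.Agent.H9x.Q Pool.Agent.K7x.QC Filter
open scoped Asymptotics

theorem result (B : Oracle) :
    ∃ A : Oracle, Reduces {y | B y = true} {y | A y = true} ∧ ∃ L : Set (List Bool),
      IsOSQMA1 A L ∧ IsOSQMA1 A Lᶜ ∧ IsAM1 A L ∧ IsAM1 A Lᶜ ∧ ∀ t : ℕ → ℕ, Computable t →
        ((fun n => (t n : ℝ)) =o[atTop] fun n => (n : ℝ)) →
          ¬ IsQCMATime t A L ∧ ¬ IsQCMATime t A Lᶜ ∧ ¬ IsPQCMATime t A L ∧
            ¬ IsNAQCMATime t A L :=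
  world4 p_graph3 (p_core p_close p_aff) (p_few p_aff) (p_core2 p_close p_aff) p_shrink p_dens
    (p_core3 p_aff) p_circ p_test (p_norm p_test)
    (fun _ hnb B _ hW s => isAM1 hnb B hW s) B

end Pool.Agent.Results.MP_36f78e_lc.AdaptiveQuestions
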