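import Pool.Agent.H10x.QW.Num

/-!
# A world in which `QCMA`, even `QCPH`, is `P`, and `QMA` is nearly `P`, but `QMA ≠ QCMA`

For every monotone unbounded function `α` there are a classical oracle `A` and a unitary oracle `U`
relative to which `P = PSPACE` (for `A`), every promise problem in `QCPH` (a constant number of
alternating classical quantifiers in front of a quantum verifier, so in particular every problem in
`QCMA`) is in `P`, every promise problem in `QMA` is in deterministic time `n ^ O(α n)`, and some
language is, like its complement, in exact unique `QMA` with witnesses of `(α n + 1) (log n + 1)`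
qubits, but not in `QCPH`, and so not in `QCMA`, even with polynomial advice.

The unitary oracle consists of reflections at hidden phase states of dimension `n ^ (α n + 1)`; the
classical oracle contains the truth tables of all the verifiers with classical witnesses, with the
reflections replaced by the identity as long as their dimension is larger than a fixed power of the
size of the verifier, and of all the verifiers with quantum witnesses from length `n ^ (α n + 1)` on.
The phases are chosen such that no verifier with a classical witness notices the replacement.
-/

set_option autoImplicit false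

namespace Pool.Agent.Results.MP_36f78e_lc.NearCollapse

open Pool.Agent.H620R2.Gauge Pool.Agent.H10x.QW Filter

theorem result (α : ℕ → ℕ) (hα : Monotone α) (hα' : Tendsto α atTop atTop) :
    ∃ (A : Oracle) (U : UOracle),
      (∀ L, IsPSPACE A L → IsP A L) ∧
      (∀ Y N, IsQCPH A U Y N → ∃ L, IsP A L ∧ Y ⊆ L ∧ Disjoint N L) ∧
      (∀ Y N, IsQMA A U Y N → ∃ L, IsTime α A L ∧ Y ⊆ L ∧ Disjoint N L) ∧
      ∃ L, IsUQMA (fun n => (α n + 1) * (Nat.log 2 n + 1)) A U L ∧
        IsUQMA (fun n => (α n + 1) * (Nat.log 2 n + 1)) A U Lᶜ ∧ ¬ IsQCPHpoly A U L Lᶜ :=
  world α hα hα'

end Pool.Agent.Results.MP_36f78e_lc.NearCollapse
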