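import Pool.Agent.Helper11x.PT.Main

/-!
# How near to the identity can a unitary oracle be which separates `QMA` from `QCMA`?

A unitary oracle consists of a unitary operator on `k` qubits for every `k`. For a function
`ε ≥ 0` consider the unitary oracles `U` whose operator on `k` qubits differs from the identity by at
most `ε k`, for every `k`. The exact threshold is: `ε` exponentially small.

* If `ε` is not exponentially small (for every `δ > 0` it is larger than `2 ^ (-δ k)` for infinitely
  many `k`), then for every classical oracle `A` there are such a unitary oracle `U` and a language in
  `QMA` with perfect completeness relative to `A` and `U` which is not in `QCPH` (a constant number of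
  alternating classical quantifiers in front of a quantum verifier), and so not in `QCMA`, even with
  polynomial advice.
* Above every oracle there is a classical oracle `A` with `P = PSPACE` such that for every
  exponentially small `ε` and every such unitary oracle `U`, every promise problem in `QMA` relative
  to `A` and `U` is separated by a language in `P ^ A / poly`.

The verifiers may use the operators of `U`, their inverses, and both with a control qubit.

Idea of the proof. First part: a rotation by the angle `π / 256 ^ t` of hidden phase states. The
verifier applies it `256 ^ t` times to the witness; the inputs have length `256 ^ t + m` for the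
operators on `m` qubits, and the angle is chosen as a function of `ε m`. Random phases are not
noticed by the verifiers with classical witnesses. Second part: the operators on `O (log n)` qubits
are described, with sufficient precision, by polynomially many bits, the others are not noticed; the
oracle `A` contains the answers for all the unitary oracles with such descriptions.
-/

set_option autoImplicit false

namespace Pool.Agent.Results.MP_36f78e_lc.PerturbationThreshold

open Pool.Agent.NPC Pool.Agent.H620R2.Gauge Pool.Agent.Helper11x.PT

theorem result :
    (∀ ε : ℕ → ℝ, (∀ k, 0 ≤ ε k) → ¬ ExpSmall ε → ∀ A : Oracle, ∃ U : UOr, Near ε U ∧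
      ∃ L, IsQMA1 A U L ∧ ¬ IsQCPHpoly A U L Lᶜ) ∧
    ∀ B : Oracle, ∃ A : Oracle, Reduces {y | B y = true} {y | A y = true} ∧
      (∀ L, IsPSPACE A L → IsP A L) ∧
      ∀ ε : ℕ → ℝ, (∀ k, 0 ≤ ε k) → ExpSmall ε → ∀ U : UOr, Near ε U →
        ∀ Y N, IsQMA A U Y N → ∃ L, WithAdvice (IsP A) L ∧ Y ⊆ L ∧ Disjoint N L :=
  threshold

end Pool.Agent.Results.MP_36f78e_lc.PerturbationThreshold
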