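import Pool.Agent.H20LE.PN
import Pool.Agent.H20LE.Sparse

/-!
# QMA versus QCMA: classical oracles of polynomial description complexity do not separate

Above every oracle `B` there is an oracle `O` with `P = PSPACE` such that for every oracle `A` in
`P^O/poly` (in particular for every polynomially sparse `A`), relative to the join of `O` and `A`,

* every promise problem in `QMA`, even with polynomially many unentangled quantum witnesses, is
  separated by a language in `NP`;
* every promise problem in `BQP` is separated by a language in `P`;
* `PSPACE` is contained in `P ^ NP`.

This is not a collapse of everything: for some such `A` there is a language in `NP` which is not in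
`BQP` and whose complement is not in `QMA`.

Idea of the proof. For the inputs of a given length there are only `2 ^ poly` possible oracles. If a
quantum circuit with `T` gates and a state distinguish some of them from the true oracle, then, by
the hybrid argument, one question distinguishes a fraction `1 / (576 T ^ 2)` of them from it. So
polynomially many questions exclude all of them (a classical certificate), and polynomially many
adaptive questions decide (a potential argument with the majority oracle). Polynomial space is
decided by learning the oracle with counterexamples to the majority.
-/

set_option autoImplicit false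

namespace Pool.Agent.Results.MP_36f78e_lc.PolynomialEntropy

open Pool.Agent.NPC Pool.Agent.H620R2.Gauge Pool.Agent.H9x.Q Pool.Agent.H20RD Pool.Agent.H20LE

/-- **Quantum witnesses and quantum computations are not helped by oracles of polynomial
description complexity.** -/
theorem result : ∀ B : Oracle, ∃ O : Oracle,
    Reduces {y | B y = true} {y | O y = true} ∧
    (∀ L : Set (List Bool), IsPSPACE O L → IsP O L) ∧
    (∀ A : Oracle, WithAdvice (IsP O) {y | A y = true} →
      (∀ Yes No : Set (List Bool),
        (∀ r : Polynomial ℕ, InQMA r (join O A) Yes No →
          ∃ L, IsNP (join O A) L ∧ Yes ⊆ L ∧ Disjoint L No) ∧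
        (InBQP (join O A) Yes No → ∃ L, IsP (join O A) L ∧ Yes ⊆ L ∧ Disjoint L No)) ∧
      ∀ L : Set (List Bool), IsPSPACE (join O A) L → IsPNP (join O A) L) ∧
    ∃ A : Oracle, WithAdvice (IsP O) {y | A y = true} ∧
      ∃ L : Set (List Bool), IsNP (join O A) L ∧ ¬ IsBQP (join O A) L ∧
        ¬ IsQMA (join O A) Lᶜ := by
  intro B
  obtain ⟨O, R, num, hO⟩ := exists_orc B
  exact ⟨O, base_reduces hO, fun L hL => pspace_eq hO hL, fun A hA =>
    ⟨fun Yes No => ⟨fun r h => inNP hO hA h, fun h => inP hO hA h⟩, fun L hL => inPNP hO hA hL⟩,
    exists_hard O⟩

end Pool.Agent.Results.MP_36f78e_lc.PolynomialEntropy
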